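import Pool.Agent.Helper26.KD.St
import Pool.Agent.Helper22.NL.StR

/-! # Project CB (MP_65faa7, bulk case), block K, module Lp: the limit `p → pH` -/

set_option autoImplicit false

open scoped BigOperators ENNReal Topology
open Pool.LE Pool.NL Filter

namespace Pool.KD

theorem hLp (hTauLeft : StTauLeft) (hTauMono : StTauMono) (hTauBasic : StTauBasic) (hPH : StPH) : StLp := by
  intro d L f x b hd hf hb
  obtain ⟨hp0, hp1, -, -⟩ := hPH d hd
  let I := {p : ℝ // 0 ≤ p ∧ p < pH d}
  have hne : Nonempty I := ⟨⟨0, le_refl 0, hp0⟩⟩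
  have hmono : ∀ z : Zd d, Monotone (fun q : I => tauE d q.1 z) := fun z q q' hqq =>
    hTauMono d q.1 q'.1 z q.2.1 hqq (by linarith [q'.2.2])
  have hlim : ∀ z : Zd d, Tendsto (fun q : I => tau d q.1 z) atTop (𝓝 (tau d (pH d) z)) := by
    intro z
    have h1 : Tendsto (fun q : I => tauE d q.1 z) atTop (𝓝 (tauE d (pH d) z)) := by
      rw [hTauLeft d z hd]
      exact tendsto_atTop_iSup (hmono z)
    have h2 : tauE d (pH d) z ≠ ⊤ :=
      ne_top_of_le_ne_top ENNReal.one_ne_top ((hTauBasic d (pH d) hp0.le (by linarith)).1 z)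
    exact (ENNReal.tendsto_toReal h2).comp h1
  have hsum : Tendsto (fun q : I => ∑ y ∈ L, tau d q.1 (x - y) * f y) atTop
      (𝓝 (∑ y ∈ L, tau d (pH d) (x - y) * f y)) :=
    tendsto_finset_sum L fun y _ => (hlim (x - y)).mul_const (f y)
  refine le_of_tendsto hsum ?_
  filter_upwards [eventually_ge_atTop (⟨pH d / 2, by linarith, by linarith⟩ : I)] with q hq
  exact hb q.1 hq q.2.2

end Pool.KD
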